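import Pool.Agent.MP_ca1109_lc.Xp.Defs
import Pool.Agent.MP_ca1109_lc.Xor.FN

/-!
# Exponential moments of weighted sums of monomials of bounded read

`X = ∑ m ∈ M, w m * (mon m - 2^-|m|)`, `V = ∑ m ∈ M, w m ^ 2 * 2^-|m|`.
-/

namespace Pool.Agent.MP_ca1109_lc.Yt

open Finset Pool.Agent.MP_ca1109_lc.Xp
open Pool.Agent.MP_ca1109_lc.Dnf 

variable {n : ℕ}

theorem mon_eq (m : Finset (Fin n)) (x : Cube n) : mon m x = 0 ∨ mon m x = 1 := by
  unfold mon
  by_cases h : Tr m x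
  · exact Or.inr (one_true h)
  · exact Or.inl (one_false h)

theorem E_mon (m : Finset (Fin n)) : E (mon m) = (1 / 2) ^ m.card :=
  E_term (⟨m, fun _ => true⟩ : Term n)

theorem on_mon (m : Finset (Fin n)) : On m (mon m) :=
  on_term (⟨m, fun _ => true⟩ : Term n)

/-- The exponential moment of one monomial. -/
theorem E_exp_mon (m : Finset (Fin n)) {s : ℝ} (hs : |s| ≤ 1) :
    E (fun x => Real.exp (s * (mon m x - (1 / 2) ^ m.card))) ≤ Real.exp (s ^ 2 * (1 / 2) ^ m.card) := by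
  set p : ℝ := (1 / 2) ^ m.card with hp
  have hp0 : 0 ≤ p := by positivity
  have h1 : (fun x => Real.exp (s * (mon m x - p))) =
      fun x => Real.exp (-(s * p)) * (1 + (Real.exp s - 1) * mon m x) := by
    funext x
    rw [show s * (mon m x - p) = -(s * p) + s * mon m x by ring, Real.exp_add]
    congr 1
    rcases mon_eq m x with h | h <;> rw [h]
    · simp
    · simp
  rw [h1, E_smul, E_add, E_const, E_smul, E_mon, ← hp]
  have h2 : 1 + (Real.exp s - 1) * p ≤ Real.exp ((Real.exp s - 1) * p) := by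
    have := Real.add_one_le_exp ((Real.exp s - 1) * p)
    linarith
  refine (mul_le_mul_of_nonneg_left h2 (Real.exp_pos _).le).trans ?_
  rw [← Real.exp_add]
  refine Real.exp_le_exp.2 ?_
  have h3 := (abs_le.1 (Real.abs_exp_sub_one_sub_id_le hs)).2
  nlinarith [mul_le_mul_of_nonneg_right h3 hp0]

/-- The exponential moments of the centred sum. -/
theorem mgf {r : ℕ} (hr : 0 < r) {M : Finset (Finset (Fin n))} (h : Rd r M)
    {w : Finset (Fin n) → ℝ} {b t : ℝ} (hb : ∀ m ∈ M, |w m| ≤ b) (ht : |t| * (r * b) ≤ 1) :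
    E (fun x => Real.exp (t * ∑ m ∈ M, w m * (mon m x - (1 / 2) ^ m.card))) ≤
      Real.exp (r * t ^ 2 * ∑ m ∈ M, w m ^ 2 * (1 / 2) ^ m.card) := by
  have hr' : (0 : ℝ) < r := by exact_mod_cast hr
  have h1 := Xor.finner r hr M (fun m => m) h
    (fun m x => Real.exp (t * (w m * (mon m x - (1 / 2) ^ m.card))))
    (fun m _ x => (Real.exp_pos _).le)
    (fun m _ x y hxy => by simp only [on_mon m x y hxy])
  have h2 : (fun x => Real.exp (t * ∑ m ∈ M, w m * (mon m x - (1 / 2) ^ m.card))) =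
      fun x => ∏ m ∈ M, Real.exp (t * (w m * (mon m x - (1 / 2) ^ m.card))) := by
    funext x
    rw [Finset.mul_sum, Real.exp_sum]
  rw [h2]
  refine h1.trans ?_
  rw [Finset.mul_sum, Real.exp_sum]
  refine Finset.prod_le_prod (fun m _ => ?_) fun m hm => ?_
  · exact Real.rpow_nonneg (E_nonneg fun x => pow_nonneg (Real.exp_pos _).le _) _
  · have h3 : (fun x => Real.exp (t * (w m * (mon m x - (1 / 2) ^ m.card))) ^ r) =
        fun x => Real.exp ((r * t * w m) * (mon m x - (1 / 2) ^ m.card)) := by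
      funext x
      rw [← Real.exp_nat_mul]
      congr 1
      ring
    have h4 : |r * t * w m| ≤ 1 := by
      rw [abs_mul, abs_mul, abs_of_pos hr']
      have := mul_le_mul_of_nonneg_left (hb m hm) (mul_nonneg (abs_nonneg t) hr'.le)
      nlinarith
    rw [h3]
    have h5 := E_exp_mon m h4
    calc (E fun x => Real.exp ((r * t * w m) * (mon m x - (1 / 2) ^ m.card))) ^ ((r : ℝ)⁻¹)
        ≤ Real.exp ((r * t * w m) ^ 2 * (1 / 2) ^ m.card) ^ ((r : ℝ)⁻¹) :=
          Real.rpow_le_rpow (E_nonneg fun x => (Real.exp_pos _).le) h5 (by positivity)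
      _ = Real.exp (r * t ^ 2 * (w m ^ 2 * (1 / 2) ^ m.card)) := by
          rw [← Real.exp_mul]
          congr 1
          field_simp

theorem abs_pow_le (k : ℕ) (y : ℝ) :
    |y| ^ k ≤ k.factorial * (Real.exp y + Real.exp (-y)) := by
  have h1 : |y| ^ k / k.factorial ≤ Real.exp |y| :=
    Real.pow_div_factorial_le_exp |y| (abs_nonneg y) k
  have h2 : Real.exp |y| ≤ Real.exp y + Real.exp (-y) := by
    rcases abs_cases y with ⟨h, _⟩ | ⟨h, _⟩ <;> rw [h]
    · linarith [Real.exp_pos (-y)]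
    · linarith [Real.exp_pos y]
  have h3 : (0 : ℝ) < k.factorial := by exact_mod_cast k.factorial_pos
  rw [div_le_iff₀ h3] at h1
  nlinarith

/-- The absolute moments of the centred sum. -/
theorem moment {r : ℕ} (hr : 0 < r) {M : Finset (Finset (Fin n))} (h : Rd r M)
    {w : Finset (Fin n) → ℝ} {b t : ℝ} (hb : ∀ m ∈ M, |w m| ≤ b) (ht0 : 0 < t)
    (ht : t * (r * b) ≤ 1) (k : ℕ) :
    E (fun x => |∑ m ∈ M, w m * (mon m x - (1 / 2) ^ m.card)| ^ k) ≤
      2 * k.factorial / t ^ k * Real.exp (r * t ^ 2 * ∑ m ∈ M, w m ^ 2 * (1 / 2) ^ m.card) := by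
  set X : Cube n → ℝ := fun x => ∑ m ∈ M, w m * (mon m x - (1 / 2) ^ m.card) with hX
  set V : ℝ := ∑ m ∈ M, w m ^ 2 * (1 / 2) ^ m.card with hV
  have h1 : E (fun x => Real.exp (t * X x)) ≤ Real.exp (r * t ^ 2 * V) :=
    mgf hr h hb (by rw [abs_of_pos ht0]; exact ht)
  have h2 : E (fun x => Real.exp (-t * X x)) ≤ Real.exp (r * t ^ 2 * V) := by
    have := mgf hr h hb (t := -t) (by rw [abs_neg, abs_of_pos ht0]; exact ht)
    rwa [neg_sq] at this
  have h3 : E (fun x => |X x| ^ k) ≤ E (fun x => k.factorial / t ^ k *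
      (Real.exp (t * X x) + Real.exp (-t * X x))) := by
    refine E_mono fun x => ?_
    have h4 := abs_pow_le k (t * X x)
    rw [abs_mul, abs_of_pos ht0, mul_pow] at h4
    have h5 : 0 < t ^ k := pow_pos ht0 k
    rw [div_mul_eq_mul_div, le_div_iff₀ h5, neg_mul]
    linarith
  refine h3.trans ?_
  rw [E_smul, E_add]
  have h6 : (0 : ℝ) ≤ k.factorial / t ^ k := by positivity
  calc k.factorial / t ^ k * ((E fun x => Real.exp (t * X x)) + E fun x => Real.exp (-t * X x))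
      ≤ k.factorial / t ^ k * (Real.exp (r * t ^ 2 * V) + Real.exp (r * t ^ 2 * V)) :=
        mul_le_mul_of_nonneg_left (add_le_add h1 h2) h6
    _ = 2 * k.factorial / t ^ k * Real.exp (r * t ^ 2 * V) := by ring

/-- The absolute moments of the normalised sum, for bounded weights. -/
theorem moment_norm {r : ℕ} (hr : 0 < r) {M : Finset (Finset (Fin n))} (h : Rd r M)
    {w : Finset (Fin n) → ℝ} {b s : ℝ} (hb : ∀ m ∈ M, |w m| ≤ b) (hl : 0 < Xp.lam M) (hs0 : 0 < s)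
    (hs : s * (r * b) ≤ Real.sqrt (Xp.lam M)) (k : ℕ) :
    E (fun x => |(∑ m ∈ M, w m * (mon m x - (1 / 2) ^ m.card)) / Real.sqrt (Xp.lam M)| ^ k) ≤
      2 * k.factorial / s ^ k * Real.exp (r * b ^ 2 * s ^ 2) := by
  have hq : 0 < Real.sqrt (Xp.lam M) := Real.sqrt_pos.2 hl
  have hq2 : Real.sqrt (Xp.lam M) ^ 2 = Xp.lam M := Real.sq_sqrt hl.le
  have h1 := moment hr h hb (t := s / Real.sqrt (Xp.lam M)) (by positivity)
    (by rw [div_mul_eq_mul_div, div_le_one hq]; exact hs) k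
  have h2 : (fun x : Cube n => |(∑ m ∈ M, w m * (mon m x - (1 / 2) ^ m.card)) / Real.sqrt (Xp.lam M)| ^ k) =
      fun x => (1 / Real.sqrt (Xp.lam M) ^ k) * |∑ m ∈ M, w m * (mon m x - (1 / 2) ^ m.card)| ^ k := by
    funext x
    rw [abs_div, abs_of_pos hq, div_pow]
    ring
  rw [h2, E_smul]
  have h3 : ∑ m ∈ M, w m ^ 2 * (1 / 2 : ℝ) ^ m.card ≤ b ^ 2 * Xp.lam M := by
    unfold Xp.lam
    rw [Finset.mul_sum]
    refine Finset.sum_le_sum fun m hm => mul_le_mul_of_nonneg_right ?_ (by positivity)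
    rw [← sq_abs (w m)]
    exact pow_le_pow_left₀ (abs_nonneg _) (hb m hm) 2
  have h4 : Real.exp (r * (s / Real.sqrt (Xp.lam M)) ^ 2 * ∑ m ∈ M, w m ^ 2 * (1 / 2 : ℝ) ^ m.card) ≤
      Real.exp (r * b ^ 2 * s ^ 2) := by
    refine Real.exp_le_exp.2 ?_
    have h5 : (s / Real.sqrt (Xp.lam M)) ^ 2 * Xp.lam M = s ^ 2 := by
      rw [div_pow, hq2]
      field_simp
    calc (r : ℝ) * (s / Real.sqrt (Xp.lam M)) ^ 2 * ∑ m ∈ M, w m ^ 2 * (1 / 2 : ℝ) ^ m.card
        ≤ r * (s / Real.sqrt (Xp.lam M)) ^ 2 * (b ^ 2 * Xp.lam M) :=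
          mul_le_mul_of_nonneg_left h3 (by positivity)
      _ = r * b ^ 2 * ((s / Real.sqrt (Xp.lam M)) ^ 2 * Xp.lam M) := by ring
      _ = r * b ^ 2 * s ^ 2 := by rw [h5]
  calc 1 / Real.sqrt (Xp.lam M) ^ k * E (fun x => |∑ m ∈ M, w m * (mon m x - (1 / 2) ^ m.card)| ^ k)
      ≤ 1 / Real.sqrt (Xp.lam M) ^ k * (2 * k.factorial / (s / Real.sqrt (Xp.lam M)) ^ k *
          Real.exp (r * (s / Real.sqrt (Xp.lam M)) ^ 2 * ∑ m ∈ M, w m ^ 2 * (1 / 2) ^ m.card)) :=
        mul_le_mul_of_nonneg_left h1 (by positivity)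
    _ ≤ 1 / Real.sqrt (Xp.lam M) ^ k * (2 * k.factorial / (s / Real.sqrt (Xp.lam M)) ^ k *
          Real.exp (r * b ^ 2 * s ^ 2)) :=
        mul_le_mul_of_nonneg_left (mul_le_mul_of_nonneg_left h4 (by positivity)) (by positivity)
    _ = 2 * k.factorial / s ^ k * Real.exp (r * b ^ 2 * s ^ 2) := by
        rw [div_pow]
        field_simp

end Pool.Agent.MP_ca1109_lc.Yt
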